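import Pool.Agent.Helper58.N4.Frame

set_option autoImplicit false

/-!
# Surfaces with `Lap H = c H` whose second normal component vanishes (three-dimensional type)
-/

namespace N5

variable {A : Type*} [CommRing A] [Algebra ℝ A]

theorem D_num (D : Derivation ℝ A A) (n : ℕ) [n.AtLeastTwo] :
    D (OfNat.ofNat n : A) = 0 := by
  have h := D.map_natCast n
  exact_mod_cast h

theorem num_cancel {a b : A} (n : ℕ) (hn : n ≠ 0) (h : (n : A) * a = (n : A) * b) : a = b := by
  have h2 : (algebraMap ℝ A ((n : ℝ)⁻¹)) * (n : A) = 1 := by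
    have h3 : (n : A) = algebraMap ℝ A (n : ℝ) := by simp
    rw [h3, ← map_mul, inv_mul_cancel₀ (by exact_mod_cast hn), map_one]
  have h4 := congrArg (fun t => algebraMap ℝ A ((n : ℝ)⁻¹) * t) h
  simp only [← mul_assoc, h2, one_mul] at h4
  exact h4

/-- the first case: the derivative of the mean curvature in the first direction is a unit -/
theorem flat3_one [Nontrivial A] {D1 D2 : Derivation ℝ A A} {p q h w1 w2 x : A} {c : ℝ}
    (S : N4.SE D1 D2 p q h w1 w2 (h * (1 + x)) 0 (h * (1 - x)) 0 0 0 c) (hh : IsUnit h)
    (hd : IsUnit (D1 h)) : False := by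
  obtain ⟨i, hi⟩ := hh.exists_right_inv
  obtain ⟨j, hj⟩ := hd.exists_right_inv
  have n2 : ∀ D : Derivation ℝ A A, D (2 : A) = 0 := fun D => D_num D 2
  have hx : x = -2 := by
    have := S.tan1
    linear_combination i * j * this - (x + 2) * (j * D1 h * hi + hj)
  subst hx
  have h2 : D2 h = 0 := by
    have := S.tan2
    apply num_cancel 4 (by norm_num)
    push_cast
    linear_combination i * this - 4 * D2 h * hi
  have e31 := S.cod31
  have e32 := S.cod32
  have e41 := S.cod41
  have e42 := S.cod42
  have eg := S.gauss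
  have ec := S.comm h
  have el := S.lap3
  simp only [map_zero, h2, Derivation.leibniz, map_add, map_sub, map_neg, smul_eq_mul,
    Derivation.map_one_eq_zero, n2] at e31 e32 e41 e42 eg ec el
  have hp : p = 0 := by
    apply num_cancel 4 (by norm_num)
    push_cast
    linear_combination (-i) * e31 - 4 * p * hi
  have hw2 : w2 = 0 := by linear_combination i * e41 - w2 * hi
  have hw1 : w1 = 0 := by
    apply num_cancel 3 (by norm_num)
    push_cast
    linear_combination i * e42 - 3 * w1 * hi
  subst hp hw1 hw2
  have h1 : 3 * D1 h = 4 * (q * h) := by linear_combination e32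
  have hq : IsUnit q := by
    apply IsUnit.of_mul_eq_one (4 * h * j * algebraMap ℝ A (1 / 3))
    have h3 : (3 : A) * algebraMap ℝ A (1 / 3) = 1 := by
      rw [← map_ofNat (algebraMap ℝ A) 3, ← map_mul]
      norm_num
    linear_combination (-j * algebraMap ℝ A (1 / 3)) * h1 + h3 + 3 * algebraMap ℝ A (1 / 3) * hj
  obtain ⟨k, hk⟩ := hq.exists_right_inv
  have g1 : D1 q = -3 * h ^ 2 + q ^ 2 := by
    rw [map_zero] at eg
    linear_combination eg
  have d1 : 3 * D1 (D1 h) = 4 * (D1 q * h + q * D1 h) := by
    have := congrArg D1 h1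
    simp only [Derivation.leibniz, smul_eq_mul] at this
    have n3 : D1 (3 : A) = 0 := D_num D1 3
    have n4 : D1 (4 : A) = 0 := D_num D1 4
    rw [n3, n4] at this
    linear_combination this
  -- `16 q ^ 2 - 126 h ^ 2 = 9 c`
  have m1 : 16 * q ^ 2 - 126 * h ^ 2 = 9 * algebraMap ℝ A c := by
    have t : h * (16 * q ^ 2 - 126 * h ^ 2) = h * (9 * algebraMap ℝ A c) := by
      linear_combination 9 * el - 3 * d1 - 12 * h * g1 - (4 * q - 3 * q) * h1
    linear_combination i * t - (16 * q ^ 2 - 126 * h ^ 2 - 9 * algebraMap ℝ A c) * hi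
  have m2 : 32 * q * D1 q - 252 * h * D1 h = 0 := by
    have := congrArg D1 m1
    simp only [Derivation.leibniz, Derivation.leibniz_pow, smul_eq_mul, map_sub,
      Derivation.map_algebraMap, nsmul_eq_mul] at this
    have n3 : D1 (16 : A) = 0 := D_num D1 16
    have n4 : D1 (126 : A) = 0 := D_num D1 126
    have n5 : D1 (9 : A) = 0 := D_num D1 9
    rw [n3, n4, n5] at this
    push_cast at this
    linear_combination this
  have m3 : 2 * q ^ 2 = 27 * h ^ 2 := by
    apply num_cancel 16 (by norm_num)
    push_cast
    linear_combination k * m2 - 32 * q * k * g1 + 84 * h * k * h1 -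
      (32 * q ^ 2 - 96 * h ^ 2 - 336 * h ^ 2) * hk
  have m4 : 10 * h ^ 2 = algebraMap ℝ A c := by
    apply num_cancel 9 (by norm_num)
    push_cast
    linear_combination m1 - 8 * m3
  have m5 : 20 * h * D1 h = 0 := by
    have := congrArg D1 m4
    simp only [Derivation.leibniz, Derivation.leibniz_pow, smul_eq_mul,
      Derivation.map_algebraMap, nsmul_eq_mul] at this
    have n3 : D1 (10 : A) = 0 := D_num D1 10
    rw [n3] at this
    push_cast at this
    linear_combination this
  have m6 : (1 : A) = 0 := by
    apply num_cancel 20 (by norm_num)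
    push_cast
    linear_combination i * j * m5 - 20 * (D1 h * j * hi + hj)
  exact one_ne_zero m6

/-- interchange of the two tangent vectors -/
theorem SE_swap {D1 D2 : Derivation ℝ A A} {p q h w1 w2 a11 a12 a22 b11 b12 b22 : A} {c : ℝ}
    (S : N4.SE D1 D2 p q h w1 w2 a11 a12 a22 b11 b12 b22 c) :
    N4.SE D2 D1 q p h w2 w1 a22 a12 a11 b22 b12 b11 c where
  comm := fun u => by linear_combination -(S.comm u)
  tr3 := by linear_combination S.tr3
  tr4 := by linear_combination S.tr4
  gauss := by linear_combination S.gauss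
  cod31 := by linear_combination -S.cod32
  cod32 := by linear_combination -S.cod31
  cod41 := by linear_combination -S.cod42
  cod42 := by linear_combination -S.cod41
  ricci := by linear_combination -S.ricci
  tan1 := by linear_combination S.tan2
  tan2 := by linear_combination S.tan1
  lap3 := by linear_combination S.lap3
  lap4 := by linear_combination S.lap4

/-- **Three-dimensional type**: if the second component of the second fundamental form vanishes
in a principal frame, the mean curvature cannot have a unit derivative. -/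
theorem flat3 [Nontrivial A] {D1 D2 : Derivation ℝ A A} {p q h w1 w2 x y : A} {c : ℝ}
    (S : N4.SE D1 D2 p q h w1 w2 (h * (1 + x)) 0 (h * (1 - x)) (h * y) 0 (-(h * y)) c)
    (hy : y = 0) (hh : IsUnit h) (hd : IsUnit (D1 h) ∨ IsUnit (D2 h)) : False := by
  subst hy
  have S1 : N4.SE D1 D2 p q h w1 w2 (h * (1 + x)) 0 (h * (1 - x)) 0 0 0 c := by
    have := S
    rwa [mul_zero, neg_zero] at this
  rcases hd with hd | hd
  · exact flat3_one S1 hh hd
  · have S2 := SE_swap S1
    have e1 : h * (1 - x) = h * (1 + -x) := by ring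
    have e2 : h * (1 + x) = h * (1 - -x) := by ring
    rw [e1, e2] at S2
    exact flat3_one S2 hh hd

end N5
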