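import Pool.Agent.Helper3.NF.PF

set_option autoImplicit false

/-!
# Flat normal bundle: the case `x ^ 2 + y ^ 2 = 4`
-/

namespace N5

open NF

variable {A : Type*} [CommRing A] [Algebra ℝ A]

theorem n4_pq {D1 D2 : Derivation ℝ A A} {p q h x y al be : A} {c : ℝ}
    (P : PF D1 D2 p q h x y al be c) (hN : x ^ 2 + y ^ 2 = 4) :
    4 * q = -3 * al * y ∧ 4 * p = 3 * be * y := by
  have h1 := congrArg D1 hN
  have h2 := congrArg D2 hN
  rw [map_add, Dsq, Dsq, D4z, P.x1, P.y1] at h1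
  rw [map_add, Dsq, Dsq, D4z, P.x2, P.y2] at h2
  constructor
  · rw [← sub_eq_zero]
    apply nat_cancel 4 (by norm_num)
    push_cast
    linear_combination h1 - (2 * al * y + 4 * q) * hN
  · rw [← sub_eq_zero]
    apply nat_cancel 4 (by norm_num)
    push_cast
    linear_combination h2 + (2 * be * y - 4 * p) * hN

theorem n4_E1 {D1 D2 : Derivation ℝ A A} {p q h x y al be : A} {c : ℝ}
    (P : PF D1 D2 p q h x y al be c) (hN : x ^ 2 + y ^ 2 = 4)
    (hq : 4 * q = -3 * al * y) (hp : 4 * p = 3 * be * y) :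
    2 * x ^ 2 * (al ^ 2 + be ^ 2) + 4 * x * (al ^ 2 - be ^ 2) + (6 + 2 * x ^ 2) * h ^ 2 +
      algebraMap ℝ A c = 0 := by
  have k1 : 4 * D1 q = -3 * (y * D1 al + al * D1 y) := by
    have := congrArg D1 hq
    rw [Derivation.leibniz, Derivation.leibniz, Derivation.leibniz, D4z, map_neg, D3z] at this
    simp only [smul_eq_mul] at this
    linear_combination this
  have k2 : 4 * D2 p = 3 * (y * D2 be + be * D2 y) := by
    have := congrArg D2 hp
    rw [Derivation.leibniz, Derivation.leibniz, Derivation.leibniz, D4z, D3z] at this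
    simp only [smul_eq_mul] at this
    linear_combination this
  apply nat_cancel 12 (by norm_num)
  push_cast
  linear_combination 16 * P.pq - 4 * k1 - 4 * k2 + 3 * P.al1 - 3 * P.be2 + 12 * al * P.y1 -
    12 * be * P.y2 + 4 * q * hq + 4 * p * hp + (12 * al ^ 2 + 12 * be ^ 2 - 16 * h ^ 2) * hN

/-- **The case `x ^ 2 + y ^ 2 = 4`** -/
theorem n4 {D1 D2 : Derivation ℝ A A} {p q h x y al be : A} {c : ℝ}
    (P : PF D1 D2 p q h x y al be c) (hN : x ^ 2 + y ^ 2 = 4) (hu : IsUnit h) (yu : IsUnit y)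
    (au : IsUnit al) (bu : IsUnit be) : 3 * x ^ 2 + 2 = 0 := by
  obtain ⟨hq, hp⟩ := n4_pq P hN
  have hE := n4_E1 P hN hq hp
  have dE : ∀ D : Derivation ℝ A A, 4 * x * D x * (al ^ 2 + be ^ 2) +
      2 * x ^ 2 * (2 * al * D al + 2 * be * D be) + 4 * D x * (al ^ 2 - be ^ 2) +
      4 * x * (2 * al * D al - 2 * be * D be) + 4 * x * D x * h ^ 2 +
      (6 + 2 * x ^ 2) * 2 * h * D h = 0 := by
    intro D
    have := congrArg D hE
    simp only [map_add, map_sub, Derivation.leibniz, Dsq, D2z, D4z, D6z,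
      Derivation.map_algebraMap, smul_eq_mul, map_zero] at this
    linear_combination this
  have e2 : x * (1 + x + x ^ 2) * (al ^ 2 + be ^ 2) + 2 * (1 + x + x ^ 2) * (al ^ 2 - be ^ 2) +
      (x ^ 3 + x ^ 2 + 4 * x - 6) * h ^ 2 = 0 := by
    have t : (8 : ℕ) * (al * (y * (y * (x * (1 + x + x ^ 2) * (al ^ 2 + be ^ 2) +
        2 * (1 + x + x ^ 2) * (al ^ 2 - be ^ 2) +
        (x ^ 3 + x ^ 2 + 4 * x - 6) * h ^ 2)))) = 0 := by
      push_cast
      linear_combination 4 * y * dE D1 + (-4 * al * x ^ 2 - 8 * al * x) * P.al1 +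
        (-8 * be * x ^ 2 + 16 * be * x) * P.be1 +
        (-16 * al ^ 2 * x * y - 16 * be ^ 2 * x * y - 16 * h ^ 2 * x * y - 16 * al ^ 2 * y +
          16 * be ^ 2 * y) * P.x1 +
        (-16 * h * x ^ 2 * y - 48 * h * y) * P.h1 +
        (-8 * al ^ 2 * x ^ 2 * y - 8 * be ^ 2 * x ^ 2 * y - 8 * h ^ 2 * x ^ 2 * y -
          8 * al ^ 2 * x * y + 8 * be ^ 2 * x * y) * hq +
        (-16 * al * be * x * y) * hp + (-4 * al * x ^ 3 + 16 * al * x) * hE +
        (8 * al * be ^ 2 * x ^ 3 + 8 * al ^ 3 * x ^ 3 - 12 * al * be ^ 2 * x ^ 2 +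
          4 * al ^ 3 * x ^ 2 - 24 * al * be ^ 2 * x + 16 * al * h ^ 2 * x - 24 * al ^ 3 * x) * hN
    exact (yu.mul_right_eq_zero).1 ((yu.mul_right_eq_zero).1 ((au.mul_right_eq_zero).1
      (nat_cancel 8 (by norm_num) t)))
  have e3 : x * (1 - x + x ^ 2) * (al ^ 2 + be ^ 2) + 2 * (1 - x + x ^ 2) * (al ^ 2 - be ^ 2) +
      (x ^ 3 - x ^ 2 + 4 * x + 6) * h ^ 2 = 0 := by
    have t : (8 : ℕ) * (be * (y * (y * (x * (1 - x + x ^ 2) * (al ^ 2 + be ^ 2) +
        2 * (1 - x + x ^ 2) * (al ^ 2 - be ^ 2) +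
        (x ^ 3 - x ^ 2 + 4 * x + 6) * h ^ 2)))) = 0 := by
      push_cast
      linear_combination 4 * y * dE D2 + (-4 * be * x ^ 2 + 8 * be * x) * P.be2 +
        (-8 * al * x ^ 2 - 16 * al * x) * P.al2 +
        (-16 * al ^ 2 * x * y - 16 * be ^ 2 * x * y - 16 * h ^ 2 * x * y - 16 * al ^ 2 * y +
          16 * be ^ 2 * y) * P.x2 +
        (-16 * h * x ^ 2 * y - 48 * h * y) * P.h2 + (16 * al * be * x * y) * hq +
        (-8 * al ^ 2 * x ^ 2 * y - 8 * be ^ 2 * x ^ 2 * y - 8 * h ^ 2 * x ^ 2 * y -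
          8 * al ^ 2 * x * y + 8 * be ^ 2 * x * y) * hp +
        (-4 * be * x ^ 3 + 16 * be * x) * hE +
        (8 * al ^ 2 * be * x ^ 3 + 8 * be ^ 3 * x ^ 3 + 12 * al ^ 2 * be * x ^ 2 -
          4 * be ^ 3 * x ^ 2 - 24 * al ^ 2 * be * x + 16 * be * h ^ 2 * x - 24 * be ^ 3 * x) * hN
    exact (yu.mul_right_eq_zero).1 ((yu.mul_right_eq_zero).1 ((bu.mul_right_eq_zero).1
      (nat_cancel 8 (by norm_num) t)))
  have t : (6 : ℕ) * (h * (h * (3 * x ^ 2 + 2))) = 0 := by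
    push_cast
    linear_combination (1 + x + x ^ 2) * e3 - (1 - x + x ^ 2) * e2
  exact (hu.mul_right_eq_zero).1 ((hu.mul_right_eq_zero).1 (nat_cancel 6 (by norm_num) t))

end N5
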