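import Pool.Agent.Helper58.N4.Data
import Pool.Agent.Helper29.N2.Rot
import Pool.Agent.Helper95.N5.Flat3

set_option autoImplicit false

/-!
# Rotational surfaces: from the structure equations to the ordinary differential system
-/

namespace N5

open N4 Set Pool.Agent.Helper29.N2

/-- complement of two orthonormal vectors of four-space -/
theorem exists_complement (u v : Fin 4 → ℝ) (hu : dt u u = 1) (hv : dt v v = 1)
    (huv : dt u v = 0) : ∃ E1 E2 : Fin 4 → ℝ, ON u v E1 E2 := by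
  have h1 : ∃ i : Fin 4, 0 < 1 - u i ^ 2 - v i ^ 2 := by
    by_contra hcon
    push Not at hcon
    have e0 := hcon 0
    have e1 := hcon 1
    have e2 := hcon 2
    have e3 := hcon 3
    unfold dt at hu hv
    nlinarith
  obtain ⟨i, hi⟩ := h1
  set s := Real.sqrt (1 - u i ^ 2 - v i ^ 2) with hs
  have hs2 : s * s = 1 - u i ^ 2 - v i ^ 2 := Real.mul_self_sqrt hi.le
  have hs0 : 0 < s := Real.sqrt_pos.mpr hi
  set ei : Fin 4 → ℝ := fun j => if j = i then 1 else 0 with hei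
  have hd : ∀ z : Fin 4 → ℝ, dt z ei = z i := by
    intro z
    unfold dt
    rw [hei]
    fin_cases i <;> simp
  have hd2 : ei i = 1 := by
    rw [hei]
    simp
  have hd3 : ∀ z : Fin 4 → ℝ, dt ei z = z i := fun z => (dt_comm ei z).trans (hd z)
  set w : Fin 4 → ℝ := s⁻¹ • (ei - u i • u - v i • v) with hw
  have hsi : s * s⁻¹ = 1 := mul_inv_cancel₀ hs0.ne'
  have hww : dt w w = 1 := by
    rw [hw, dt_smul_left, dt_smul_right, dt_sub_left, dt_sub_left, dt_sub_right, dt_sub_right,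
      dt_sub_right, dt_sub_right, dt_sub_right, dt_sub_right]
    simp only [dt_smul_left, dt_smul_right, hd, hd3, hd2, hu, hv, huv, dt_comm v u,
      Pi.smul_apply, smul_eq_mul]
    linear_combination (-(s⁻¹ * s⁻¹)) * hs2 + (s * s⁻¹ + 1) * hsi
  have huw : dt u w = 0 := by
    rw [hw, dt_smul_right, dt_sub_right, dt_sub_right, dt_smul_right, dt_smul_right, hd, hu, huv]
    ring
  have hvw : dt v w = 0 := by
    rw [hw, dt_smul_right, dt_sub_right, dt_sub_right, dt_smul_right, dt_smul_right, hd,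
      dt_comm v u, hv, huv]
    ring
  exact ⟨w, cr u v w, cr_on u v w hu hv hww huv huw hvw⟩

variable {A : Type*} [CommRing A] [Algebra ℝ A]

/-- constant vectors -/
def cv (A : Type*) [CommRing A] [Algebra ℝ A] (E : Fin 4 → ℝ) : Fin 4 → A :=
  fun i => algebraMap ℝ A (E i)

theorem vd_cv (D : Derivation ℝ A A) (E : Fin 4 → ℝ) : vd D (cv A E) = 0 := by
  funext i
  exact D.map_algebraMap (E i)

theorem vm_cv (e : A →ₐ[ℝ] ℝ) (E : Fin 4 → ℝ) : vm e (cv A E) = E := by
  funext i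
  exact e.commutes (E i)

omit [Algebra ℝ A] in
theorem dt_zero_right (u : Fin 4 → A) : dt u 0 = 0 := by
  simp [dt]

omit [Algebra ℝ A] in
theorem dt_zero_left (u : Fin 4 → A) : dt 0 u = 0 := by
  simp [dt]

theorem D_dt_cv (D : Derivation ℝ A A) (u : Fin 4 → A) (E : Fin 4 → ℝ) :
    D (dt u (cv A E)) = dt (vd D u) (cv A E) := by
  rw [D_dt, vd_cv, dt_zero_right, add_zero]

/-- the data of a surface with `Lap H = c H` in a principal frame, with vectors -/
structure RD (D1 D2 : Derivation ℝ A A) (f X1 X2 N3 N4 : Fin 4 → A) (p q h w1 x y : A)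
    (c : ℝ) : Prop where
  fr : Fr D1 D2 f X1 X2 N3 N4 p q
  a11 : dt (vd D1 X1) N3 = h * (1 + x)
  a12 : dt (vd D1 X2) N3 = 0
  a22 : dt (vd D2 X2) N3 = h * (1 - x)
  b11 : dt (vd D1 X1) N4 = h * y
  b12 : dt (vd D1 X2) N4 = 0
  b22 : dt (vd D2 X2) N4 = -(h * y)
  w1 : dt (vd D1 N3) N4 = w1
  lap : vd D1 (vd D1 (h • N3)) + vd D2 (vd D2 (h • N3)) - p • vd D2 (h • N3) -
      q • vd D1 (h • N3) = (algebraMap ℝ A c * h) • N3

section
variable {D1 D2 : Derivation ℝ A A} {f X1 X2 N3 N4 : Fin 4 → A} {p q h w1 x y : A} {c : ℝ}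

theorem RD.dX1 (R : RD D1 D2 f X1 X2 N3 N4 p q h w1 x y c) :
    vd D1 X1 = p • X2 + (h * (1 + x)) • N3 + (h * y) • N4 := by
  conv_lhs => rw [expand R.fr.on (vd D1 X1)]
  rw [dt_self D1 R.fr.on.h00, R.fr.coef_p, R.a11, R.b11, zero_smul, zero_add]

theorem RD.dX2 (R : RD D1 D2 f X1 X2 N3 N4 p q h w1 x y c) :
    vd D2 X2 = q • X1 + (h * (1 - x)) • N3 + (-(h * y)) • N4 := by
  conv_lhs => rw [expand R.fr.on (vd D2 X2)]
  rw [dt_self D2 R.fr.on.h11, R.fr.coef_q, R.a22, R.b22, zero_smul, add_zero]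

theorem RD.dX12 (R : RD D1 D2 f X1 X2 N3 N4 p q h w1 x y c) :
    vd D2 X1 = (-q) • X2 := by
  have x22 : dt (vd D2 X1) X2 = -q := by
    have h3 := dt_swap D2 (u := X2) (v := X1) (by rw [dt_comm, R.fr.on.h01, map_zero])
    rw [h3, R.fr.coef_q]
  conv_lhs => rw [expand R.fr.on (vd D2 X1)]
  rw [dt_self D2 R.fr.on.h00, x22, R.fr.mixed3, R.fr.mixed4, R.a12, R.b12]
  simp

theorem RD.dN3 (R : RD D1 D2 f X1 X2 N3 N4 p q h w1 x y c) :
    vd D1 N3 = (-(h * (1 + x))) • X1 + w1 • N4 := by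
  have o := R.fr.on
  have n311 : dt (vd D1 N3) X1 = -(h * (1 + x)) := by
    rw [dt_swap D1 (u := X1) (v := N3) (by rw [o.h02, map_zero]), R.a11]
  have n312 : dt (vd D1 N3) X2 = 0 := by
    rw [dt_swap D1 (u := X2) (v := N3) (by rw [o.h12, map_zero]), R.a12, neg_zero]
  have n313 : dt (vd D1 N3) N3 = 0 := dt_self D1 o.h22
  conv_lhs => rw [expand R.fr.on (vd D1 N3)]
  rw [n311, n312, n313, R.w1]
  simp

/-- the square of the curvature of the circles -/
theorem RD.KK (R : RD D1 D2 f X1 X2 N3 N4 p q h w1 x y c) :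
    dt (vd D1 X1) (vd D1 X1) = p ^ 2 + h ^ 2 * ((1 + x) ^ 2 + y ^ 2) := by
  have o := R.fr.on
  rw [parseval o, dt_self D1 o.h00, R.fr.coef_p, R.a11, R.b11]
  ring

/-- the derivative of the curvature vector of the circles -/
theorem RD.dW (R : RD D1 D2 f X1 X2 N3 N4 p q h w1 x y c) (hq : q = 0) :
    vd D2 (vd D1 X1) = p • vd D1 X1 := by
  have e := R.fr.vcomm X1
  rw [R.dX12, hq, neg_zero, zero_smul, zero_smul, add_zero] at e
  have e2 : vd D1 (0 : Fin 4 → A) = 0 := by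
    funext i
    exact map_zero D1
  rw [e2, zero_sub, neg_smul] at e
  exact neg_injective e

theorem RD.D2K (R : RD D1 D2 f X1 X2 N3 N4 p q h w1 x y c) (hq : q = 0) :
    D2 (dt (vd D1 X1) (vd D1 X1)) = 2 * p * dt (vd D1 X1) (vd D1 X1) := by
  rw [D_dt, R.dW hq, dt_smul_left, dt_smul_right]
  ring

theorem RD.D2a (R : RD D1 D2 f X1 X2 N3 N4 p q h w1 x y c) (hq : q = 0) {a : A}
    (ha : a * a * dt (vd D1 X1) (vd D1 X1) = 1) : D2 a = -(p * a) := by
  have e := congrArg D2 ha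
  rw [Derivation.map_one_eq_zero, Derivation.leibniz, Derivation.leibniz, R.D2K hq] at e
  simp only [smul_eq_mul] at e
  apply num_cancel 2 (by norm_num)
  push_cast
  linear_combination a * e - (2 * D2 a + 2 * p * a) * ha

theorem RD.D2aW (R : RD D1 D2 f X1 X2 N3 N4 p q h w1 x y c) (hq : q = 0) {a : A}
    (ha : a * a * dt (vd D1 X1) (vd D1 X1) = 1) : vd D2 (a • vd D1 X1) = 0 := by
  rw [vd_smul, R.dW hq, R.D2a hq ha]
  funext i
  simp only [Pi.add_apply, Pi.smul_apply, smul_eq_mul, Pi.zero_apply]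
  ring

theorem RD.DDH (R : RD D1 D2 f X1 X2 N3 N4 p q h w1 x y c) (hw : w1 = 0) (h1 : D1 h = 0)
    (hx : D1 x = 0) : vd D1 (vd D1 (h • N3)) = (-(h ^ 2 * (1 + x))) • vd D1 X1 := by
  have e1 : vd D1 (h • N3) = (-(h ^ 2 * (1 + x))) • X1 := by
    rw [vd_smul, R.dN3, hw, h1]
    funext i
    simp only [Pi.add_apply, Pi.smul_apply, smul_eq_mul]
    ring
  have e2 : D1 (-(h ^ 2 * (1 + x))) = 0 := by
    rw [map_neg, Derivation.leibniz, Derivation.leibniz_pow, map_add,
      Derivation.map_one_eq_zero, h1, hx]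
    simp
  rw [e1, vd_smul, e2, zero_smul, add_zero]

/-- the second order equation for the components of the mean curvature vector -/
theorem RD.second (R : RD D1 D2 f X1 X2 N3 N4 p q h w1 x y c) (hq : q = 0) (hw : w1 = 0)
    (h1 : D1 h = 0) (hx : D1 x = 0) (E : Fin 4 → A) (hE : vd D2 E = 0) :
    D2 (D2 (dt (h • N3) E)) - p * D2 (dt (h • N3) E) =
      algebraMap ℝ A c * dt (h • N3) E + h ^ 2 * (1 + x) * dt (vd D1 X1) E := by
  have e1 : D2 (dt (h • N3) E) = dt (vd D2 (h • N3)) E := by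
    rw [D_dt, hE, dt_zero_right, add_zero]
  have e2 : D2 (dt (vd D2 (h • N3)) E) = dt (vd D2 (vd D2 (h • N3))) E := by
    rw [D_dt, hE, dt_zero_right, add_zero]
  have e3 : dt (vd D1 (vd D1 (h • N3)) + vd D2 (vd D2 (h • N3)) - p • vd D2 (h • N3) -
      q • vd D1 (h • N3)) E = dt ((algebraMap ℝ A c * h) • N3) E := by rw [R.lap]
  rw [R.DDH hw h1 hx, dt_sub_left, dt_sub_left, dt_add_left, dt_smul_left, dt_smul_left,
    dt_smul_left, dt_smul_left, hq] at e3
  rw [e1, e2]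
  rw [dt_smul_left]
  linear_combination e3

theorem deriv_const {α β : ℝ} (h0 : (0 : ℝ) ∈ Ioo α β) {g : ℝ → ℝ}
    (hg : ∀ t ∈ Ioo α β, HasDerivAt g 0 t) (hz : g 0 = 0) : ∀ t ∈ Ioo α β, g t = 0 := by
  intro t ht
  have hd : DifferentiableOn ℝ g (Ioo α β) := fun s hs =>
    (hg s hs).differentiableAt.differentiableWithinAt
  have h2 : (Ioo α β).EqOn (deriv g) 0 := fun s hs => (hg s hs).deriv
  have := (isOpen_Ioo (a := α) (b := β)).is_const_of_deriv_eq_zero
    (convex_Ioo α β).isPreconnected hd h2 ht h0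
  rw [this, hz]

/-- **The ordinary differential system of the rotational case** along a curve -/
theorem RD.rotL (R : RD D1 D2 f X1 X2 N3 N4 p q h w1 x y c) (hq : q = 0) (hw : w1 = 0)
    (h1 : D1 h = 0) (hx : D1 x = 0)
    (hg : D2 p = p ^ 2 + h ^ 2 * (1 - x ^ 2 - y ^ 2)) {a : A}
    (ha : a * a * (p ^ 2 + h ^ 2 * ((1 + x) ^ 2 + y ^ 2)) = 1) {α β : ℝ}
    (h0 : (0 : ℝ) ∈ Ioo α β) (e : ℝ → (A →ₐ[ℝ] ℝ))
    (he : ∀ t ∈ Ioo α β, ∀ u : A, HasDerivAt (fun t => e t u) (e t (a * D2 u)) t)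
    (hpos : ∀ t ∈ Ioo α β, 0 < e t a) :
    ∃ B1 F1 F2 G1 G2 b1 b2 : ℝ → ℝ, RotL (-c) α β (fun t => e t a)
      (fun t => e t (-(a ^ 2 * p))) (fun t => e t (2 * h ^ 2 * (1 + x) * a))
      B1 F1 F2 G1 G2 b1 b2 := by
  have o := R.fr.on
  have hKK := R.KK
  set W := vd D1 X1 with hW
  have ha' : a * a * dt W W = 1 := by rw [hKK, ha]
  have hDa : D2 a = -(p * a) := R.D2a hq ha'
  have hDW : vd D2 (a • W) = 0 := R.D2aW hq ha'
  have hDX : vd D2 X1 = 0 := by
    rw [R.dX12, hq]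
    simp
  have hWX : dt X1 W = 0 := by
    rw [dt_comm, hW]
    exact dt_self D1 o.h00
  -- constant vectors
  obtain ⟨E1, E2, hon⟩ := exists_complement (vm (e 0) X1) (vm (e 0) (a • W))
    (by rw [← dt_map, o.h00, map_one])
    (by rw [← dt_map, dt_smul_left, dt_smul_right, ← mul_assoc, ha', map_one])
    (by rw [← dt_map, dt_smul_right, hWX, mul_zero, map_zero])
  have cX : ∀ E : Fin 4 → ℝ, dt (vm (e 0) X1) E = 0 → ∀ t ∈ Ioo α β,
      e t (dt X1 (cv A E)) = 0 := by
    intro E hE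
    apply deriv_const h0
    · intro t ht
      have := he t ht (dt X1 (cv A E))
      rwa [D_dt_cv, hDX, dt_zero_left, mul_zero, map_zero] at this
    · show e 0 (dt X1 (cv A E)) = 0
      rw [dt_map, vm_cv, hE]
  have cW : ∀ E : Fin 4 → ℝ, dt (vm (e 0) (a • W)) E = 0 → ∀ t ∈ Ioo α β,
      e t (dt (a • W) (cv A E)) = 0 := by
    intro E hE
    apply deriv_const h0
    · intro t ht
      have := he t ht (dt (a • W) (cv A E))
      rwa [D_dt_cv, hDW, dt_zero_left, mul_zero, map_zero] at this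
    · show e 0 (dt (a • W) (cv A E)) = 0
      rw [dt_map, vm_cv, hE]
  have cW' : ∀ E : Fin 4 → ℝ, dt (vm (e 0) (a • W)) E = 0 → ∀ t ∈ Ioo α β,
      e t (dt W (cv A E)) = 0 := by
    intro E hE t ht
    have h2 := cW E hE t ht
    rw [dt_smul_left, map_mul] at h2
    exact (mul_eq_zero.mp h2).resolve_left (hpos t ht).ne'
  -- the components of the mean curvature vector
  have hF : ∀ E : Fin 4 → ℝ, a * D2 (a * D2 (dt (h • N3) (cv A E))) =
      a ^ 2 * (algebraMap ℝ A c * dt (h • N3) (cv A E) + h ^ 2 * (1 + x) * dt W (cv A E)) := by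
    intro E
    have h2 := R.second hq hw h1 hx (cv A E) (vd_cv D2 E)
    rw [Derivation.leibniz, hDa]
    simp only [smul_eq_mul]
    linear_combination a ^ 2 * h2
  have hFd : ∀ E : Fin 4 → ℝ, dt (vm (e 0) (a • W)) E = 0 → ∀ t ∈ Ioo α β,
      HasDerivAt (fun t => e t (a * D2 (-2 * dt (h • N3) (cv A E))))
        (-(-c * (e t a) ^ 2 * e t (-2 * dt (h • N3) (cv A E)))) t := by
    intro E hE t ht
    have h2 := he t ht (a * D2 (-2 * dt (h • N3) (cv A E)))
    have h3 : a * D2 (a * D2 (-2 * dt (h • N3) (cv A E))) =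
        -2 * (a ^ 2 * (algebraMap ℝ A c * dt (h • N3) (cv A E) +
          h ^ 2 * (1 + x) * dt W (cv A E))) := by
      rw [← hF E]
      have n2 : ∀ u : A, D2 (-2 * u) = -2 * D2 u := by
        intro u
        rw [Derivation.leibniz, map_neg, D_num D2 2]
        simp
      rw [n2]
      have e4 : a * (-2 * D2 (dt (h • N3) (cv A E))) =
          -2 * (a * D2 (dt (h • N3) (cv A E))) := by ring
      rw [e4, n2]
      ring
    rw [h3] at h2
    refine h2.congr_deriv ?_
    simp only [map_mul, map_add, map_neg, map_pow, cW' E hE t ht, AlgHom.commutes]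
    have e5 : (algebraMap ℝ ℝ) c = c := rfl
    rw [e5]
    ring
  have hbd : ∀ E : Fin 4 → ℝ, dt (vm (e 0) (a • W)) E = 0 → ∀ t ∈ Ioo α β,
      HasDerivAt (fun t => e t (a * dt X2 (cv A E)))
        (-((e t a) ^ 2 * e t (-2 * dt (h • N3) (cv A E)))) t := by
    intro E hE t ht
    have h2 := he t ht (a * dt X2 (cv A E))
    have h3 : a * D2 (a * dt X2 (cv A E)) =
        a ^ 2 * (2 * dt (h • N3) (cv A E) - dt W (cv A E)) := by
      rw [Derivation.leibniz, hDa, D_dt_cv, R.dX2, hW, R.dX1, hq]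
      simp only [dt_add_left, dt_smul_left, smul_eq_mul]
      ring
    rw [h3] at h2
    refine h2.congr_deriv ?_
    simp only [map_mul, map_sub, map_neg, map_pow, cW' E hE t ht, map_ofNat]
    ring
  -- the radial component
  have hu : dt (h • N3) (a • W) = h ^ 2 * (1 + x) * a := by
    rw [dt_smul_left, dt_smul_right, dt_comm, hW, R.a11]
    ring
  have hu2 : a * D2 (a * D2 (2 * h ^ 2 * (1 + x) * a)) =
      (1 + algebraMap ℝ A c * a ^ 2) * (2 * h ^ 2 * (1 + x) * a) := by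
    have h2 := R.second hq hw h1 hx (a • W) hDW
    have h3 : 2 * h ^ 2 * (1 + x) * a = 2 * dt (h • N3) (a • W) := by
      rw [hu]
      ring
    have n2 : ∀ u : A, D2 (2 * u) = 2 * D2 u := by
      intro u
      rw [Derivation.leibniz, D_num D2 2]
      simp
    have h4 : dt W (a • W) = a * dt W W := dt_smul_right a W W
    have h5 : a * (2 * D2 (dt (h • N3) (a • W))) = 2 * (a * D2 (dt (h • N3) (a • W))) := by ring
    rw [h3, n2, h5, n2, Derivation.leibniz, hDa]
    simp only [smul_eq_mul]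
    rw [← hW, h4] at h2
    rw [hu] at h2 ⊢
    linear_combination 2 * a ^ 2 * h2 + 2 * a * h ^ 2 * (1 + x) * ha'
  refine ⟨fun t => e t (a * D2 (2 * h ^ 2 * (1 + x) * a)),
    fun t => e t (-2 * dt (h • N3) (cv A E1)), fun t => e t (-2 * dt (h • N3) (cv A E2)),
    fun t => e t (a * D2 (-2 * dt (h • N3) (cv A E1))),
    fun t => e t (a * D2 (-2 * dt (h • N3) (cv A E2))),
    fun t => e t (a * dt X2 (cv A E1)), fun t => e t (a * dt X2 (cv A E2)), ?_⟩
  refine ⟨?_, ?_, ?_, ?_, ?_, ?_, hFd E1 hon.h12, hFd E2 hon.h13, hbd E1 hon.h12,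
    hbd E2 hon.h13, hpos, ?_⟩
  · intro t ht
    refine (he t ht a).congr_deriv ?_
    rw [hDa]
    congr 1
    ring
  · intro t ht
    refine (he t ht (-(a ^ 2 * p))).congr_deriv ?_
    have h2 : a * D2 (-(a ^ 2 * p)) = a - a ^ 2 * (2 * h ^ 2 * (1 + x) * a) := by
      rw [map_neg, Derivation.leibniz, Derivation.leibniz_pow, hDa, hg]
      simp only [smul_eq_mul, nsmul_eq_mul]
      push_cast
      linear_combination a * ha
    rw [h2, map_sub, map_mul _ (a ^ 2), map_pow]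
  · intro t ht
    exact he t ht _
  · intro t ht
    refine (he t ht _).congr_deriv ?_
    rw [hu2, map_mul, map_add, map_mul, map_pow, map_one, AlgHom.commutes]
    show (1 + c * e t a ^ 2) * _ = (1 - -c * e t a ^ 2) * _
    ring
  · intro t ht
    exact he t ht _
  · intro t ht
    exact he t ht _
  · intro t ht
    have k1 := cX E1 hon.h02 t ht
    have k2 := cX E2 hon.h03 t ht
    have k3 := cW E1 hon.h12 t ht
    have k4 := cW E2 hon.h13 t ht
    have hon2 : ON (vm (e t) X1) (vm (e t) (a • W)) E1 E2 := by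
      refine ⟨?_, ?_, hon.h22, hon.h33, ?_, ?_, ?_, ?_, ?_, hon.h23⟩
      · rw [← dt_map, o.h00, map_one]
      · rw [← dt_map, dt_smul_left, dt_smul_right, ← mul_assoc, ha', map_one]
      · rw [← dt_map, dt_smul_right, hWX, mul_zero, map_zero]
      · rw [dt_map, vm_cv] at k1
        exact k1
      · rw [dt_map, vm_cv] at k2
        exact k2
      · rw [dt_map, vm_cv] at k3
        exact k3
      · rw [dt_map, vm_cv] at k4
        exact k4
    have h2 := parseval hon2 (vm (e t) X2) (vm (e t) X2)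
    have m1 : dt (vm (e t) X2) (vm (e t) X2) = 1 := by rw [← dt_map, o.h11, map_one]
    have m2 : dt (vm (e t) X2) (vm (e t) X1) = 0 := by
      rw [← dt_map, dt_comm, o.h01, map_zero]
    have m3 : dt (vm (e t) X2) (vm (e t) (a • W)) = e t a * e t p := by
      rw [← dt_map, dt_smul_right, dt_comm, hW, R.fr.coef_p, map_mul]
    have m4 : ∀ E : Fin 4 → ℝ, e t (a * dt X2 (cv A E)) = e t a * dt (vm (e t) X2) E := by
      intro E
      rw [map_mul, dt_map, vm_cv]
    show (e t a) ^ 2 = (e t (-(a ^ 2 * p))) ^ 2 + (e t (a * dt X2 (cv A E1))) ^ 2 +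
      (e t (a * dt X2 (cv A E2))) ^ 2
    rw [m4, m4, map_neg, map_mul, map_pow]
    rw [m1, m2, m3] at h2
    linear_combination (e t a) ^ 2 * h2

end

end N5
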